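import Pool.Agent.V11315.HausOps

/-!
# Second-kind discontinuities under fast Hausdorff approximation (MP_7489b4_an, Q1)

No bounded measurable function with a discontinuity satisfies (W), (P) or (V).
-/

open MeasureTheory Set Filter Topology Real
open scoped ENNReal Nat
open Pool.Agent.V11315.Haus

namespace Pool.Agent.Results.MP_7489b4_an.NoSecondKind

/-- lower envelope: the minimum of the value and of the lower limit over the punctured
neighbourhoods -/
noncomputable def lowerEnv (f : ℝ → ℝ) (x : ℝ) : ℝ := min (f x) (liminf f (𝓝[≠] x))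

/-- upper envelope: the maximum of the value and of the upper limit over the punctured
neighbourhoods -/
noncomputable def upperEnv (f : ℝ → ℝ) (x : ℝ) : ℝ := max (f x) (limsup f (𝓝[≠] x))

/-- the completed graph -/
def completed (f : ℝ → ℝ) : Set (ℝ × ℝ) := {A | lowerEnv f A.1 ≤ A.2 ∧ A.2 ≤ upperEnv f A.1}

/-- The Hausdorff distance of the completed graphs for the metric `ρ_α`. -/
noncomputable def r (α : ℝ) (f g : ℝ → ℝ) : ℝ≥0∞ := setDist α (completed f) (completed g)

/-- Gauss-Weierstrass -/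
noncomputable def W (n : ℕ) (f : ℝ → ℝ) (x : ℝ) : ℝ :=
  √((n : ℝ) / π) * ∫ s, f (x + s) * exp (-(n : ℝ) * s ^ 2)

/-- Abel-Poisson -/
noncomputable def P (ρ : ℝ) (f : ℝ → ℝ) (x : ℝ) : ℝ :=
  1 / (2 * π) * ∫ s in (-π)..π, f (x + s) * ((1 - ρ ^ 2) / (1 - 2 * ρ * cos s + ρ ^ 2))

/-- de la Vallée-Poussin -/
noncomputable def V (n : ℕ) (f : ℝ → ℝ) (x : ℝ) : ℝ :=
  (n ! : ℝ) ^ 2 / ((2 * π) * ((2 * n)! : ℝ)) *
    ∫ s in (-π)..π, f (x + s) * (2 * cos (s / 2)) ^ (2 * n)

/-- condition (W) -/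
def CondW (α : ℝ) (f : ℝ → ℝ) : Prop :=
  limsup (fun n : ℕ => ENNReal.ofReal √(n : ℝ) * r α f (W n f)) atTop < ⊤

/-- condition (P) -/
def CondP (α : ℝ) (f : ℝ → ℝ) : Prop :=
  limsup (fun ρ : ℝ => r α f (P ρ f) / ENNReal.ofReal (1 - ρ)) (𝓝[<] 1) < ⊤

/-- condition (V) -/
def CondV (α : ℝ) (f : ℝ → ℝ) : Prop :=
  limsup (fun n : ℕ => ENNReal.ofReal √(n : ℝ) * r α f (V n f)) atTop < ⊤

/-- `x` is a point of discontinuity of the second kind of `f`: `f` is not continuous at `x` and not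
both one-sided limits exist. -/
def SecondKind (f : ℝ → ℝ) (x : ℝ) : Prop :=
  ¬ ContinuousAt f x ∧
    ¬ ((∃ a, Tendsto f (𝓝[<] x) (𝓝 a)) ∧ ∃ b, Tendsto f (𝓝[>] x) (𝓝 b))

section env

variable {f : ℝ → ℝ} {M : ℝ}

lemma upperEnv_eq (hM : ∀ x, |f x| ≤ M) (x : ℝ) : upperEnv f x = limsup f (𝓝 x) := by
  unfold upperEnv
  apply le_antisymm
  · apply max_le
    · by_contra h
      push Not at h
      have h1 := eventually_lt_of_limsup_lt h (bddAbove_of hM _)
      exact absurd h1.self_of_nhds (lt_irrefl _)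
    · exact limsup_le_limsup_of_le nhdsWithin_le_nhds (cobddAbove_of hM _) (bddAbove_of hM _)
  · apply le_of_forall_gt
    intro b hb
    obtain ⟨hb1, hb2⟩ := max_lt_iff.1 hb
    obtain ⟨c, hc1, hc2⟩ := exists_between (max_lt hb1 hb2)
    obtain ⟨hc3, hc4⟩ := max_lt_iff.1 hc1
    have h1 := eventually_lt_of_limsup_lt hc4 (bddAbove_of hM _)
    have h2 : ∀ᶠ t in 𝓝 x, f t ≤ c := by
      rw [eventually_nhdsWithin_iff] at h1
      filter_upwards [h1] with t ht
      by_cases h : t = x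
      · rw [h]
        exact hc3.le
      · exact (ht h).le
    exact (limsup_le_of_le (cobddAbove_of hM _) h2).trans_lt hc2

lemma lowerEnv_eq (hM : ∀ x, |f x| ≤ M) (x : ℝ) : lowerEnv f x = liminf f (𝓝 x) := by
  unfold lowerEnv
  apply le_antisymm
  · apply le_of_forall_lt
    intro b hb
    obtain ⟨hb1, hb2⟩ := lt_min_iff.1 hb
    obtain ⟨c, hc1, hc2⟩ := exists_between (lt_min hb1 hb2)
    obtain ⟨hc3, hc4⟩ := lt_min_iff.1 hc2
    have h1 := eventually_lt_of_lt_liminf hc4 (bddBelow_of hM _)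
    have h2 : ∀ᶠ t in 𝓝 x, c ≤ f t := by
      rw [eventually_nhdsWithin_iff] at h1
      filter_upwards [h1] with t ht
      by_cases h : t = x
      · rw [h]
        exact hc3.le
      · exact (ht h).le
    exact hc1.trans_le (le_liminf_of_le (cobddBelow_of hM _) h2)
  · apply le_min
    · by_contra h
      push Not at h
      have h1 := eventually_lt_of_lt_liminf h (bddBelow_of hM _)
      exact absurd h1.self_of_nhds (lt_irrefl _)
    · exact liminf_le_liminf_of_le nhdsWithin_le_nhds (bddBelow_of hM _) (cobddBelow_of hM _)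

lemma completed_eq (hM : ∀ x, |f x| ≤ M) : completed f = cgraph f := by
  ext A
  simp only [completed, cgraph, mem_ofPred_eq, upperEnv_eq hM, lowerEnv_eq hM]

lemma r_eq (hM : ∀ x, |f x| ≤ M) {g : ℝ → ℝ} {M' : ℝ} (hg : ∀ x, |g x| ≤ M') (α : ℝ) :
    r α f g = hdist α f g := by
  unfold r hdist
  rw [completed_eq hM, completed_eq hg]

end env

lemma op_bdd {f k : ℝ → ℝ} {M : ℝ} (hM : ∀ x, |f x| ≤ M) (h0 : ∀ s, 0 ≤ k s)
    (hi : Integrable k) (h1 : ∫ s, k s = 1) (x : ℝ) : |∫ s, f (x + s) * k s| ≤ M := by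
  calc |∫ s, f (x + s) * k s| ≤ ∫ s, |f (x + s) * k s| := abs_integral_le_integral_abs
    _ ≤ ∫ s, M * k s := by
      apply integral_mono_of_nonneg (Eventually.of_forall fun _ => abs_nonneg _)
        (hi.const_mul M)
      refine Eventually.of_forall fun t => ?_
      simp only
      rw [abs_mul, abs_of_nonneg (h0 _)]
      exact mul_le_mul_of_nonneg_right (hM _) (h0 _)
    _ = M := by rw [integral_const_mul, h1, mul_one]

/-- transfer of the general theorem to the completed graphs of this problem -/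
lemma transfer {ι : Type*} {l : Filter ι} [NeBot l] {k : ι → ℝ → ℝ} {δ : ι → ℝ}
    (hk : GoodKernel l k δ) {f : ℝ → ℝ} (hf : NullMeasurable f volume) {M : ℝ}
    (hM : ∀ x, |f x| ≤ M) {α : ℝ} (hα : 0 < α) {T : ι → ℝ → ℝ}
    (hT : ∀ i x, T i x = ∫ s, f (x + s) * k i s)
    {C : ℝ} (hC : 0 < C) (hd : ∀ᶠ i in l, r α f (T i) < ENNReal.ofReal (C * δ i)) :
    Continuous f := by
  refine main hk hf.aemeasurable hM hα (Eventually.of_forall hT) hC ?_
  filter_upwards [hd, hk.nonneg, hk.integrable, hk.one] with i hi h0 h1 h2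
  rwa [← r_eq hM (g := T i) (M' := M)]
  intro x
  rw [hT]
  exact op_bdd hM h0 h1 h2 x

/-- **Main theorem.** A bounded Lebesgue measurable function satisfying (W), or `2π`-periodic and
satisfying (P) or (V), is continuous; in particular it has no point of discontinuity of the second
kind. -/
theorem result (α : ℝ) (hα : 0 < α) (f : ℝ → ℝ) (hb : ∃ M, ∀ x, |f x| ≤ M)
    (hf : NullMeasurable f volume)
    (h : CondW α f ∨ (Function.Periodic f (2 * π) ∧ (CondP α f ∨ CondV α f))) :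
    (∀ x, ¬ SecondKind f x) ∧ Continuous f := by
  obtain ⟨M, hM⟩ := hb
  have hcont : Continuous f := by
    rcases h with h | ⟨_, h | h⟩
    · have hr : ∀ᶠ n : ℕ in atTop, 0 < √(n : ℝ) ∧ √(n : ℝ) * (1 / √(n : ℝ)) = 1 := by
        filter_upwards [sqrt_rate one_pos] with n hn
        simpa using hn
      obtain ⟨C, hC, hev⟩ := rate_of_limsup one_pos hr h
      exact transfer goodW hf hM hα (fun n x => opW_eq' n f x) hC hev
    · have hr : ∀ᶠ ρ : ℝ in 𝓝[<] 1, 0 < 1 / (1 - ρ) ∧ 1 / (1 - ρ) * (1 - ρ) = 1 :=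
        lin_rate one_pos
      have h' : limsup (fun ρ : ℝ => ENNReal.ofReal (1 / (1 - ρ)) * r α f (P ρ f)) (𝓝[<] 1) < ⊤ := by
        refine lt_of_eq_of_lt (limsup_congr ?_) h
        filter_upwards [good_mem] with ρ hρ
        have : 0 < 1 - ρ := by linarith [hρ.2]
        rw [ENNReal.ofReal_div_of_pos this, ENNReal.ofReal_one, one_div, mul_comm,
          ENNReal.div_eq_inv_mul, mul_comm]
      obtain ⟨C, hC, hev⟩ := rate_of_limsup one_pos hr h'
      exact transfer goodP hf hM hα (fun n x => opP_eq' n f x) hC hev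
    · have hr : ∀ᶠ n : ℕ in atTop, 0 < √(n : ℝ) ∧ √(n : ℝ) * (1 / √(n : ℝ)) = 1 := by
        filter_upwards [sqrt_rate one_pos] with n hn
        simpa using hn
      obtain ⟨C, hC, hev⟩ := rate_of_limsup one_pos hr h
      exact transfer goodV hf hM hα (fun n x => opV_eq' n f x) hC hev
  exact ⟨fun x hx => hx.1 hcont.continuousAt, hcont⟩

end Pool.Agent.Results.MP_7489b4_an.NoSecondKind
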